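import Mathlib

set_option autoImplicit false

namespace Pool.Agent.Results.MP_59f6dc_co.Three

/-- a legal jump: piece `i` is reflected through piece `j` -/
def Jump {N d : ℕ} (P Q : Fin N → EuclideanSpace ℝ (Fin d)) : Prop :=
  ∃ i j, i ≠ j ∧ Q = Function.update P i ((2 : ℝ) • P j - P i)

/-- `Q` is reached from `P` by exactly `k` legal jumps -/
def Steps {N d : ℕ} : ℕ → (Fin N → EuclideanSpace ℝ (Fin d)) → (Fin N → EuclideanSpace ℝ (Fin d)) → Prop
  | 0, P, Q => Q = P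
  | k + 1, P, Q => ∃ R, Steps k P R ∧ Jump R Q

/-- `Q` is similar to `P` but larger -/
def Larger {N d : ℕ} (P Q : Fin N → EuclideanSpace ℝ (Fin d)) : Prop :=
  ∃ (l : ℝ) (R : EuclideanSpace ℝ (Fin d) ≃ₗᵢ[ℝ] EuclideanSpace ℝ (Fin d)) (t : EuclideanSpace ℝ (Fin d)),
    1 < l ∧ Finset.univ.val.map Q = Finset.univ.val.map fun i => l • R (P i) + t

/-- the lengths of the jump sequences that lead from `P` to a similar but larger configuration -/
def Lengths {N d : ℕ} (P : Fin N → EuclideanSpace ℝ (Fin d)) : Set ℕ :=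
  {k | ∃ Q, Steps k P Q ∧ Larger P Q}

abbrev E := EuclideanSpace ℝ (Fin 1)

noncomputable def cf (u v : ℝ) : Fin 3 → E := ![!₂[0], !₂[u], !₂[v]]

theorem steps_two {P Q R S : Fin 3 → E} {k : ℕ} (h : Steps k P Q) (h1 : Jump Q R) (h2 : Jump R S) :
    Steps (k + 2) P S := ⟨R, ⟨Q, h, h1⟩, h2⟩

theorem j20 (u v : ℝ) : Jump (cf u v) (cf u (-v)) := ⟨2, 0, by decide, by
  funext i; fin_cases i <;> ext j <;> fin_cases j <;> simp [cf]⟩

theorem j21 (u v : ℝ) : Jump (cf u v) (cf u (2 * u - v)) := ⟨2, 1, by decide, by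
  funext i; fin_cases i <;> ext j <;> fin_cases j <;> simp [cf]⟩

theorem j10 (u v : ℝ) : Jump (cf u v) (cf (-u) v) := ⟨1, 0, by decide, by
  funext i; fin_cases i <;> ext j <;> fin_cases j <;> simp [cf]⟩

theorem j12 (u v : ℝ) : Jump (cf u v) (cf (2 * v - u) v) := ⟨1, 2, by decide, by
  funext i; fin_cases i <;> ext j <;> fin_cases j <;> simp [cf]⟩

theorem shear (u v : ℝ) (n : ℕ) : Steps (2 * n) (cf u v) (cf u (v + 2 * n * u)) := by
  induction n with
  | zero => simp [Steps]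
  | succ n ih =>
    have := steps_two ih (j20 _ _) (j21 _ _)
    rw [show v + 2 * ((n + 1 : ℕ) : ℝ) * u = 2 * u - -(v + 2 * n * u) by push_cast; ring]
    exact this

theorem jump_mem (H : AddSubgroup ℝ) {P Q : Fin 3 → E} (h : Jump P Q) :
    (∀ a b, P a 0 - P b 0 ∈ H) ↔ (∀ a b, Q a 0 - Q b 0 ∈ H) := by
  have one : ∀ {P Q : Fin 3 → E}, Jump P Q → (∀ a b, P a 0 - P b 0 ∈ H) → ∀ a b, Q a 0 - Q b 0 ∈ H := by
    rintro P Q ⟨i, j, hij, rfl⟩ hP
    have key : ∀ a, Function.update P i ((2 : ℝ) • P j - P i) a 0 - P j 0 ∈ H := by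
      intro a
      by_cases ha : a = i
      · subst ha
        have := hP j a
        simp only [Function.update_self, PiLp.sub_apply, PiLp.smul_apply, smul_eq_mul]
        convert this using 1; ring
      · rw [Function.update_of_ne ha]; exact hP a j
    intro a b
    have := H.sub_mem (key a) (key b)
    convert this using 1; ring
  refine ⟨one h, one ?_⟩
  obtain ⟨i, j, hij, rfl⟩ := h
  refine ⟨i, j, hij, ?_⟩
  simp [Function.update_of_ne hij.symm]

theorem steps_mem (H : AddSubgroup ℝ) {P : Fin 3 → E} (k : ℕ) : ∀ Q, Steps k P Q →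
    ((∀ a b, P a 0 - P b 0 ∈ H) ↔ (∀ a b, Q a 0 - Q b 0 ∈ H)) := by
  induction k with
  | zero => rintro Q rfl; rfl
  | succ k ih => rintro Q ⟨R, h1, h2⟩; exact (ih R h1).trans (jump_mem H h2)

theorem steps_le {P : Fin 3 → E} (hP : ∀ a b, |P a 0 - P b 0| ≤ 1) (k : ℕ) : ∀ Q, Steps k P Q →
    ∀ a b, |Q a 0 - Q b 0| ≤ 2 ^ k := by
  induction k with
  | zero => rintro Q rfl; simpa using hP
  | succ k ih =>
    rintro Q ⟨R, h1, i, j, hij, rfl⟩
    have hR := ih R h1
    have key : ∀ a, |Function.update R i ((2 : ℝ) • R j - R i) a 0 - R j 0| ≤ 2 ^ k := by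
      intro a
      by_cases ha : a = i
      · subst ha
        have := hR j a
        simp only [Function.update_self, PiLp.sub_apply, PiLp.smul_apply, smul_eq_mul]
        convert this using 2; ring
      · rw [Function.update_of_ne ha]; exact hR a j
    intro a b
    have h1 := abs_le.mp (key a)
    have h2 := abs_le.mp (key b)
    rw [pow_succ, abs_le]
    constructor <;> linarith [h1.1, h1.2, h2.1, h2.2]

def lat (m s : ℝ) : AddSubgroup ℝ where
  carrier := {y | ∃ a b : ℤ, y = m * (a + b * s)}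
  zero_mem' := ⟨0, 0, by simp⟩
  add_mem' := by
    rintro _ _ ⟨a, b, rfl⟩ ⟨c, e, rfl⟩
    exact ⟨a + c, b + e, by push_cast; ring⟩
  neg_mem' := by
    rintro _ ⟨a, b, rfl⟩
    exact ⟨-a, -b, by push_cast; ring⟩

theorem cf_mem (n : ℕ) (s : ℝ) (a b : Fin 3) : cf 1 (s - n) a 0 - cf 1 (s - n) b 0 ∈ lat 1 s := by
  have key : ∀ a, cf 1 (s - n) a 0 ∈ lat 1 s := by
    intro a
    fin_cases a
    · exact ⟨0, 0, by simp [cf]⟩
    · exact ⟨1, 0, by simp [cf]⟩
    · exact ⟨-n, 1, by simp [cf]; ring⟩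
  exact (lat 1 s).sub_mem (key a) (key b)

theorem abs_iso (l : ℝ) (hl : 0 < l) (R : E ≃ₗᵢ[ℝ] E) (t x y : E) :
    |(l • R x + t) 0 - (l • R y + t) 0| = l * |x 0 - y 0| := by
  have h : ∀ z : E, ‖z‖ = |z 0| := fun z => by
    rw [EuclideanSpace.norm_eq]; simp [Real.sqrt_sq_eq_abs]
  have h1 := h (R x - R y)
  rw [← map_sub, R.norm_map, h, map_sub] at h1
  simp only [PiLp.sub_apply, PiLp.add_apply, PiLp.smul_apply, smul_eq_mul] at h1 ⊢
  rw [h1, show l * R x 0 + t 0 - (l * R y 0 + t 0) = l * (R x 0 - R y 0) by ring, abs_mul, abs_of_pos hl]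

theorem unit_big (D : ℕ) (s l : ℝ) (hs : s * s = D) (hi : Irrational s) (h0 : 0 < s) (hl : 1 < l)
    (h1 : l ∈ lat 1 s) (h2 : (1 : ℝ) ∈ lat l s) : 2 * s - 1 ≤ l := by
  obtain ⟨a, b, h1⟩ := h1
  obtain ⟨c, e, h2⟩ := h2
  rw [one_mul] at h1
  have k1 : ((a * e + b * c : ℤ) : ℝ) * s = ((1 - a * c - b * e * D : ℤ) : ℝ) := by
    push_cast; rw [← hs]; rw [h1] at h2; linarith
  have k2 : a * e + b * c = 0 := by
    by_contra hn
    exact (hi.intCast_mul hn).ne_int _ k1
  have k3 : a * c + b * e * D = 1 := by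
    rw [k2] at k1
    rw [Int.cast_zero, zero_mul] at k1
    have : (0 : ℤ) = 1 - a * c - b * e * D := by exact_mod_cast k1
    linarith
  have k4 : (a * a - b * b * D) * (c * c - e * e * D) = 1 := by
    have : (a * a - b * b * D) * (c * c - e * e * D) =
      (a * c + b * e * D) ^ 2 - D * (a * e + b * c) ^ 2 := by ring
    rw [this, k2, k3]; ring
  have k5 : |l * (a - b * s)| = 1 := by
    have : l * (a - b * s) = ((a * a - b * b * D : ℤ) : ℝ) := by
      push_cast; rw [← hs, h1]; ring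
    rw [this]
    rcases Int.eq_one_or_neg_one_of_mul_eq_one k4 with h | h <;> simp [h]
  rw [abs_mul, abs_of_pos (by linarith)] at k5
  have k6 : |a - b * s| < 1 := by
    by_contra hn
    push Not at hn
    nlinarith
  have k7 := abs_lt.mp k6
  have k8 : (0 : ℝ) < b := by
    by_contra hn
    push Not at hn
    nlinarith [k7.2]
  have k9 : (1 : ℝ) ≤ b := by exact_mod_cast (by exact_mod_cast k8 : (0 : ℤ) < b)
  nlinarith [k7.1]

theorem main (n : ℕ) (hn : 1 ≤ n) : ∃ P : Fin 3 → E, Function.Injective P ∧ (Lengths P).Nonempty ∧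
    ∀ k ∈ Lengths P, 2 * n - 1 ≤ (2 : ℝ) ^ k := by
  obtain ⟨s, hs, h0⟩ : ∃ s : ℝ, s = √((n * n + n : ℕ) : ℝ) ∧ 0 ≤ s := ⟨_, rfl, Real.sqrt_nonneg _⟩
  have hss : s * s = ((n * n + n : ℕ) : ℝ) := by rw [hs]; exact Real.mul_self_sqrt (by positivity)
  have hi : Irrational s := by
    rw [hs, irrational_sqrt_natCast_iff]
    rintro ⟨r, hr⟩
    have h1 : n < r := by nlinarith
    nlinarith
  have hn' : (1 : ℝ) ≤ n := by exact_mod_cast hn
  have hss' : s * s = n * n + n := by rw [hss]; push_cast; ring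
  have l1 : (n : ℝ) < s := by nlinarith
  have l2 : s < n + 1 := by nlinarith
  refine ⟨cf 1 (s - n), fun a b h => ?_, ⟨2 * n + 2, _,
    steps_two (shear 1 (s - n) n) (j10 _ _) (j12 _ _), 1 + 2 * n + 2 * s, LinearIsometryEquiv.refl _ _, 0,
    by linarith, ?_⟩, ?_⟩
  · have := congrArg (fun z : E => z 0) h
    fin_cases a <;> fin_cases b <;> simp [cf] at this ⊢ <;> linarith
  · congr 1
    funext i
    fin_cases i <;> ext j <;> fin_cases j <;> simp [cf] <;> nlinarith
  · rintro k ⟨Q, hQ, l, R, t, hl, hm⟩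
    have m1 : ∀ a, ∃ i, Q a = l • R (cf 1 (s - n) i) + t := fun a => by
      have : Q a ∈ Finset.univ.val.map Q := Multiset.mem_map_of_mem _ (Finset.mem_univ a)
      rw [hm] at this
      obtain ⟨i, -, h⟩ := Multiset.mem_map.mp this
      exact ⟨i, h.symm⟩
    have m2 : ∀ i, ∃ a, Q a = l • R (cf 1 (s - n) i) + t := fun i => by
      have : l • R (cf 1 (s - n) i) + t ∈ Finset.univ.val.map
        fun i => l • R (cf 1 (s - n) i) + t := Multiset.mem_map_of_mem _ (Finset.mem_univ i)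
      rw [← hm] at this
      obtain ⟨a, -, h⟩ := Multiset.mem_map.mp this
      exact ⟨a, h⟩
    obtain ⟨a, ha⟩ := m2 0
    obtain ⟨b, hb⟩ := m2 1
    have e : |Q a 0 - Q b 0| = l := by
      rw [ha, hb, abs_iso l (by linarith)]; simp [cf]
    have u1 : l ∈ lat 1 s := by
      rw [← e, abs_mem_iff]
      exact (steps_mem _ k Q hQ).mp (cf_mem n s) a b
    have u2 : (1 : ℝ) ∈ lat l s := by
      have := (steps_mem (lat l s) k Q hQ).mpr (fun a b => by
        obtain ⟨i, hi⟩ := m1 a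
        obtain ⟨j, hj⟩ := m1 b
        rw [← abs_mem_iff, hi, hj, abs_iso l (by linarith)]
        obtain ⟨x, y, h⟩ := abs_mem_iff.mpr (cf_mem n s i j)
        exact ⟨x, y, by rw [h, one_mul]⟩) 1 0
      simpa [cf] using this
    have u3 := unit_big _ s l hss hi (by linarith) hl u1 u2
    have u4 := steps_le (P := cf 1 (s - n)) (fun a b => by
      fin_cases a <;> fin_cases b <;> simp [cf, abs_le] <;> (try constructor) <;> linarith) k Q hQ a b
    linarith

theorem result :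
    (∀ B : ℕ, ∃ P : Fin 3 → EuclideanSpace ℝ (Fin 1), Function.Injective P ∧ (Lengths P).Nonempty ∧
      B < sInf (Lengths P)) ∧
    ¬ ∃ f : ℕ → ℕ, ∀ (N d : ℕ) (P : Fin N → EuclideanSpace ℝ (Fin d)), 1 ≤ d → (Lengths P).Nonempty →
      sInf (Lengths P) ≤ f N := by
  have key : ∀ B : ℕ, ∃ P : Fin 3 → EuclideanSpace ℝ (Fin 1), Function.Injective P ∧
      (Lengths P).Nonempty ∧ B < sInf (Lengths P) := by
    intro B
    obtain ⟨P, h1, h2, h3⟩ := main (2 ^ B + 1) (by simp)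
    refine ⟨P, h1, h2, ?_⟩
    have := h3 _ (Nat.sInf_mem h2)
    by_contra hn
    have h4 : (2 : ℝ) ^ sInf (Lengths P) ≤ 2 ^ B := pow_le_pow_right₀ (by norm_num) (not_lt.mp hn)
    have h5 : (0 : ℝ) < 2 ^ B := by positivity
    push_cast at this
    linarith
  refine ⟨key, ?_⟩
  rintro ⟨f, hf⟩
  obtain ⟨P, -, h2, h3⟩ := key (f 3)
  exact absurd (hf 3 1 P le_rfl h2) (not_le.mpr h3)

end Pool.Agent.Results.MP_59f6dc_co.Three
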